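import Mathlib

set_option autoImplicit false

namespace Pool.Agent.Results.MP_b09cb0_an.Counter

open Filter Topology Set

/-- rapidly decaying coefficients -/
def Ent (c : ℕ → ℝ) : Prop := ∀ r : ℝ, 0 < r → Summable fun n => |c n| * r ^ n

/-- power series -/
noncomputable def S (c : ℕ → ℝ) (z : ℂ) : ℂ := ∑' n, (c n : ℂ) * z ^ n

/-- derivative coefficients -/
def D (c : ℕ → ℝ) (n : ℕ) : ℝ := (n + 1) * c (n + 1)

theorem Ent.D {c : ℕ → ℝ} (h : Ent c) : Ent (D c) := fun r hr => by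
  refine Summable.of_nonneg_of_le (fun n => by positivity) (fun n => ?_)
    (((summable_nat_add_iff 1).2 (h (2 * r) (by positivity))).div_const r)
  have : ((n : ℝ) + 1) ≤ 2 ^ (n + 1) := by exact_mod_cast (Nat.lt_two_pow_self (n := n + 1)).le
  rw [Counter.D, abs_mul, abs_of_pos (by positivity), le_div_iff₀ hr, mul_pow]
  calc _ = |c (n + 1)| * ((n + 1) * r ^ (n + 1)) := by ring
    _ ≤ _ := by gcongr

theorem Ent.sum {c : ℕ → ℝ} (h : Ent c) (z : ℂ) : Summable fun n => (c n : ℂ) * z ^ n :=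
  Summable.of_norm_bounded (h (‖z‖ + 1) (by positivity)) fun n => by
    rw [norm_mul, norm_pow, Complex.norm_real, Real.norm_eq_abs]
    gcongr; linarith

theorem Ent.der {c : ℕ → ℝ} (h : Ent c) (z : ℂ) : HasDerivAt (S c) (S (Counter.D c) z) z := by
  have e : S c = fun z => (c 0 : ℂ) + ∑' n, (c (n + 1) : ℂ) * z ^ (n + 1) := by
    ext z; rw [S, (h.sum z).tsum_eq_zero_add]; simp
  rw [e]
  refine (hasDerivAt_tsum_of_isPreconnected (t := Metric.ball 0 (‖z‖ + 1)) (y₀ := z) (y := z)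
    (g := fun n y => (c (n + 1) : ℂ) * y ^ (n + 1)) (g' := fun n y => (Counter.D c n : ℂ) * y ^ n)
    (h.D (‖z‖ + 1) (by positivity)) Metric.isOpen_ball (convex_ball _ _).isPreconnected
    (fun n y _ => ((hasDerivAt_pow (n + 1) y).const_mul (c (n + 1) : ℂ)).congr_deriv (by
      simp [Counter.D]; ring)) (fun n y hy => ?_) (by simp)
    ((summable_nat_add_iff (f := fun n => (c n : ℂ) * z ^ n) 1).2 (h.sum z)) (by simp)).const_add _
  rw [norm_mul, norm_pow, Complex.norm_real, Real.norm_eq_abs]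
  gcongr
  exact (mem_ball_zero_iff.1 hy).le

/-- Airy-type coefficients -/
noncomputable def a (p q : ℝ) : ℕ → ℝ
  | 0 => p
  | 1 => q
  | 2 => 0
  | n + 3 => 4 * a p q n / ((n + 3) * (n + 2))

theorem a_ent (p q : ℝ) : Ent (a p q) := fun r hr => by
  obtain ⟨N, hN⟩ := exists_nat_gt (32 * r ^ 3)
  have key : ∀ n, N ≤ n → |a p q (n + 3)| * (2 * r) ^ (n + 3) ≤ |a p q n| * (2 * r) ^ n := by
    intro n hn
    have n1 : (N : ℝ) ≤ n := by exact_mod_cast hn
    have n0 := Nat.cast_nonneg (α := ℝ) n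
    rw [a, abs_div, abs_mul, abs_of_pos (show (0 : ℝ) < (n + 3) * (n + 2) by positivity),
      div_mul_eq_mul_div, div_le_iff₀ (by positivity), abs_of_pos four_pos]
    calc _ = |a p q n| * (2 * r) ^ n * (32 * r ^ 3) := by ring
      _ ≤ _ := mul_le_mul_of_nonneg_left (by nlinarith) (by positivity)
  obtain ⟨C, hC⟩ : ∃ C, ∀ n, |a p q n| * (2 * r) ^ n ≤ C := by
    refine ⟨∑ j ∈ Finset.range (N + 3), |a p q j| * (2 * r) ^ j, fun n => ?_⟩
    induction n using Nat.strong_induction_on with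
    | _ n ih =>
      rcases lt_or_ge n (N + 3) with h | h
      · exact Finset.single_le_sum (f := fun j => |a p q j| * (2 * r) ^ j)
          (fun j _ => by positivity) (Finset.mem_range.2 h)
      · obtain ⟨m, rfl⟩ := Nat.exists_eq_add_of_le' (show 3 ≤ n by omega)
        exact (key m (by omega)).trans (ih m (by omega))
  refine Summable.of_nonneg_of_le (fun n => by positivity) (fun n => ?_)
    (summable_geometric_two.mul_left C)
  calc _ = |a p q n| * (2 * r) ^ n * (1 / 2) ^ n := by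
        rw [mul_assoc, ← mul_pow]; congr 2; ring
    _ ≤ _ := by gcongr; exact hC n

theorem ode (p q : ℝ) (z : ℂ) : S (D (D (a p q))) z = 4 * z * S (a p q) z := by
  rw [S, ((a_ent p q).D.D.sum z).tsum_eq_zero_add, S, ← tsum_mul_left]
  have : D (D (a p q)) 0 = 0 := by simp [D, a]
  rw [this, Complex.ofReal_zero, zero_mul, zero_add]
  refine tsum_congr fun n => ?_
  have : D (D (a p q)) (n + 1) = 4 * a p q n := by
    simp only [D, a]; push_cast; field_simp; ring
  rw [this]; push_cast; ring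

/-- real restriction -/
noncomputable def R (c : ℕ → ℝ) (y : ℝ) : ℝ := (S c y).re

theorem R_der {c : ℕ → ℝ} (h : Ent c) (y : ℝ) : HasDerivAt (R c) (R (D c) y) y :=
  (h.der y).real_of_complex

theorem R_an {c : ℕ → ℝ} (h : Ent c) (y : ℝ) : AnalyticAt ℝ (R c) y :=
  (Complex.reCLM.analyticAt _).comp
    (((show Differentiable ℂ (S c) from fun z => (h.der z).differentiableAt).analyticAt
      _).restrictScalars.comp (Complex.ofRealCLM.analyticAt y))

theorem R_zero (c : ℕ → ℝ) : R c 0 = c 0 := by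
  rw [R, S, tsum_eq_single 0 fun n hn => by simp [hn]]; simp

theorem R_ode (p q y : ℝ) : HasDerivAt (R (D (a p q))) (4 * y * R (a p q) y) y := by
  refine (R_der (a_ent p q).D y).congr_deriv ?_
  rw [R, ode, R]; simp

/-- components -/
noncomputable def P (p q : ℝ) (z : ℝ × ℝ) : ℝ := R (D (a p q)) z.2 + 2 * z.1 ^ 2 * R (a p q) z.2

theorem P_an (p q : ℝ) (z : ℝ × ℝ) : AnalyticAt ℝ (P p q) z :=
  ((R_an (a_ent p q).D _).comp analyticAt_snd).add ((analyticAt_const.mul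
    (analyticAt_fst.pow 2)).mul ((R_an (a_ent p q) _).comp analyticAt_snd))

theorem P_der (p q : ℝ) (z : ℝ × ℝ) :
    HasDerivAt (fun t : ℝ => P p q (z + t • (z.2 - z.1 ^ 4, -z.1)))
      (-2 * z.1 ^ 3 * P p q z) 0 := by
  have h1 : HasDerivAt (fun t : ℝ => z.1 + t * (z.2 - z.1 ^ 4)) (z.2 - z.1 ^ 4) 0 := by
    simpa using ((hasDerivAt_id (0 : ℝ)).mul_const (z.2 - z.1 ^ 4)).const_add z.1
  have h2 : HasDerivAt (fun t : ℝ => z.2 + t * -z.1) (-z.1) 0 := by
    simpa using ((hasDerivAt_id (0 : ℝ)).mul_const (-z.1)).const_add z.2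
  have e : z.2 = z.2 + 0 * -z.1 := by simp
  refine (((R_ode p q z.2).comp_of_eq 0 h2 e).add (((h1.pow 2).const_mul 2).mul
    ((R_der (a_ent p q) z.2).comp_of_eq 0 h2 e))).congr_deriv ?_
  simp [P]; ring

theorem wr (y : ℝ) : R (a 1 0) y * R (D (a 0 1)) y - R (D (a 1 0)) y * R (a 0 1) y = 1 := by
  have h : ∀ y, HasDerivAt (fun y => R (a 1 0) y * R (D (a 0 1)) y -
      R (D (a 1 0)) y * R (a 0 1) y) 0 y := fun y =>
    (((R_der (a_ent 1 0) y).mul (R_ode 0 1 y)).sub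
      ((R_ode 1 0 y).mul (R_der (a_ent 0 1) y))).congr_deriv (by ring)
  rw [is_const_of_deriv_eq_zero (fun y => (h y).differentiableAt) (fun y => (h y).deriv) y 0]
  simp [R_zero, D, a]

theorem den (z : ℝ × ℝ) : P 1 0 z ^ 2 + P 0 1 z ^ 2 ≠ 0 := fun h => by
  have a1 : P 1 0 z = 0 := by nlinarith [sq_nonneg (P 1 0 z), sq_nonneg (P 0 1 z)]
  have a2 : P 0 1 z = 0 := by nlinarith [sq_nonneg (P 1 0 z), sq_nonneg (P 0 1 z)]
  have := wr z.2
  unfold P at a1 a2
  have : (1 : ℝ) = 0 := by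
    linear_combination R (a 1 0) z.2 * a2 - R (a 0 1) z.2 * a1 - this
  norm_num at this

theorem result : ∃ (E : Polynomial ℝ) (H : ℝ × ℝ → ℝ), (∀ x, E.eval (-x) = E.eval x) ∧
    4 ≤ E.natDegree ∧ AnalyticOnNhd ℝ H Set.univ ∧ (∃ z w, H z ≠ H w) ∧ ∀ x y : ℝ,
      (y - E.eval x) * fderiv ℝ H (x, y) (1, 0) - x * fderiv ℝ H (x, y) (0, 1) = 0 := by
  have an : ∀ z, AnalyticAt ℝ (fun z => P 1 0 z ^ 2 / (P 1 0 z ^ 2 + P 0 1 z ^ 2)) z := fun z =>
    ((P_an 1 0 z).pow 2).div (((P_an 1 0 z).pow 2).add ((P_an 0 1 z).pow 2)) (den z)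
  refine ⟨Polynomial.X ^ 4, _, fun x => by simp; ring, by simp, fun z _ => an z,
    ⟨(0, 0), (1, 0), by simp [P, R_zero, D, a]; norm_num⟩, fun x y => ?_⟩
  have h1 := (an (x, y)).differentiableAt.hasFDerivAt.hasLineDerivAt (y - x ^ 4, -x)
  have h2 := ((P_der 1 0 (x, y)).pow 2).div (((P_der 1 0 (x, y)).pow 2).add
    ((P_der 0 1 (x, y)).pow 2)) (by simpa using den (x, y))
  have h3 := h1.unique h2
  have e : ((y - x ^ 4, -x) : ℝ × ℝ) = (y - x ^ 4) • (1, 0) - x • (0, 1) := by simp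
  rw [e, map_sub, map_smul, map_smul] at h3
  simp only [Polynomial.eval_pow, Polynomial.eval_X]
  refine h3.trans ?_
  simp; ring_nf; simp

end Pool.Agent.Results.MP_b09cb0_an.Counter
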